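import Pool.Agent.FS.NoLUR.Kad

/-! A virtually abelian group of isometries of a separable normed space leaves a midpoint locally
uniformly rotund equivalent norm invariant. -/

set_option autoImplicit false

namespace Pool.Agent.FS.MidRot

open Pool.Agent.FS.NoLUR

variable {𝕜 X : Type} [RCLike 𝕜] [NormedAddCommGroup X] [NormedSpace 𝕜 X]

theorem mr_fw (P Q : X →L[𝕜] X) (hP : ∀ v, ‖P v‖ ≤ ‖v‖) (hQ : ∀ v, ‖Q v‖ ≤ ‖v‖)
    (hc : ∀ v, P (Q v) = Q (P v)) (m h : X) (θ : ℝ) (h1 : ‖m + h - P m‖ ≤ θ)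
    (h2 : ‖m - h - Q m‖ ≤ θ) (j : ℕ) : j * ‖h‖ ≤ 2 * ‖m‖ + j * ((2 * 2 ^ j + 2) * θ) := by
  have θ0 : 0 ≤ θ := (norm_nonneg _).trans h1
  obtain ⟨d, hd⟩ : ∃ d, d = P m - Q m := ⟨_, rfl⟩
  obtain ⟨r, hr⟩ : ∃ r, r = m + m - P m - Q m := ⟨_, rfl⟩
  have r1 : ‖r‖ ≤ 2 * θ := by
    have : r = (m + h - P m) + (m - h - Q m) := by rw [hr]; abel
    rw [this]
    exact (norm_add_le _ _).trans (by linarith)
  have d1 : 2 * ‖h‖ ≤ ‖d‖ + 2 * θ := by
    have e : h + h = d + ((m + h - P m) - (m - h - Q m)) := by rw [hd]; abel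
    have a : ‖h + h‖ = 2 * ‖h‖ := by rw [← two_smul 𝕜 h, norm_smul, RCLike.norm_two]
    have b := norm_add_le d ((m + h - P m) - (m - h - Q m))
    have c := norm_sub_le (m + h - P m) (m - h - Q m)
    rw [← e, a] at b
    linarith
  have d2 : d + d - P d - Q d = P r - Q r := by
    simp only [hd, hr, map_sub, map_add, hc]
    abel
  obtain ⟨f, f1, f2⟩ := exists_dual_vector'' 𝕜 d
  have hpw : ∀ (i : ℕ) v, ‖(P ^ i) v‖ ≤ ‖v‖ := fun i => by
    induction i with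
    | zero => exact fun v => le_rfl
    | succ i ih => exact fun v => by rw [pow_succ]; exact (ih _).trans (hP v)
  let g : ℕ → X → ℝ := fun i v => RCLike.re (f ((P ^ i) v))
  have g1 : ∀ i v, |g i v| ≤ ‖v‖ := fun i v =>
    (RCLike.abs_re_le_norm _).trans ((f.le_opNorm _).trans
      ((mul_le_of_le_one_left (norm_nonneg _) f1).trans (hpw i v)))
  have g2 : ∀ i v w, g i (v + w) = g i v + g i w := fun i v w => by simp only [g, map_add]
  have g3 : ∀ i v w, g i (v - w) = g i v - g i w := fun i v w => by simp only [g, map_sub]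
  have g4 : ∀ i v, g (i + 1) v = g i (P v) := fun i v => by simp only [g, pow_succ]; rfl
  have k1 : ∀ i : ℕ, ‖d‖ - 4 * (2 ^ i - 1) * θ ≤ g i d := fun i => by
    induction i with
    | zero =>
      have : g 0 d = ‖d‖ := by
        show RCLike.re (f d) = _
        rw [f2, RCLike.ofReal_re]
      rw [this]
      simp
    | succ i ih =>
      have a := congrArg (g i) d2
      rw [g3, g3, g2, g3, ← g4] at a
      have b1 := abs_le.1 (g1 i (Q d))
      have b2 := abs_le.1 (g1 i (P r))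
      have b3 := abs_le.1 (g1 i (Q r))
      have c1 := hQ d
      have c2 := hP r
      have c3 := hQ r
      rw [pow_succ]
      linarith [b1.2, b2.2, b3.1]
  have k2 : ∀ i, g i d ≤ 2 * g (i + 1) m - 2 * g i m + 2 * θ := fun i => by
    have e : d = P m + P m - (m + m) + r := by rw [hd, hr]; abel
    have a := congrArg (g i) e
    rw [g2, g3, g2, g2, ← g4] at a
    linarith [(abs_le.1 (g1 i r)).2]
  have k3 : ∀ n : ℕ, n * ‖d‖ ≤ 2 * g n m - 2 * g 0 m + n * ((4 * 2 ^ n + 2) * θ) := fun n => by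
    induction n with
    | zero => simp
    | succ n ih =>
      have a := k1 n
      have b := k2 n
      have c : (0 : ℝ) ≤ n * (2 ^ n * θ) := by positivity
      have c' : (0 : ℝ) ≤ 2 ^ n * θ := by positivity
      rw [pow_succ]
      push_cast
      nlinarith
  have a := k3 j
  have b1 := (abs_le.1 (g1 j m)).2
  have b2 := (abs_le.1 (g1 0 m)).1
  have c := mul_le_mul_of_nonneg_left d1 (Nat.cast_nonneg (α := ℝ) j)
  nlinarith

theorem mr_sem (C : Subalgebra 𝕜 (X →L[𝕜] X)) (m : X) (η : ℝ) (hη : 0 ≤ η) :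
    ∃ p : Seminorm 𝕜 X, (∀ x, ∀ T ∈ C, p x ≤ η * ‖T‖ + ‖x - T m‖) ∧
      ∀ x t, p x < t → ∃ T ∈ C, η * ‖T‖ + ‖x - T m‖ < t := by
  let F : X → C → ℝ := fun x T => η * ‖T.1‖ + ‖x - T.1 m‖
  have F0 : ∀ x T, 0 ≤ F x T := fun x T => by positivity
  have hb : ∀ x, BddBelow (Set.range (F x)) := fun x => ⟨0, by rintro _ ⟨T, rfl⟩; exact F0 x T⟩
  refine ⟨Seminorm.ofSMulLE (fun x => ⨅ T, F x T) ?_ (fun x y => ?_) (fun c x => ?_),
    fun x T hT => ciInf_le (hb x) ⟨T, hT⟩, fun x t ht => ?_⟩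
  · exact le_antisymm (ciInf_le_of_le (hb 0) 0 (by simp [F])) (le_ciInf (F0 0))
  · refine le_ciInf_add_ciInf fun T S => ciInf_le_of_le (hb _) (T + S) ?_
    have a := norm_add_le T.1 S.1
    have b := norm_add_le (x - T.1 m) (y - S.1 m)
    have e : x + y - (T.1 + S.1) m = x - T.1 m + (y - S.1 m) := by
      rw [ContinuousLinearMap.add_apply]; abel
    show η * ‖T.1 + S.1‖ + ‖x + y - (T.1 + S.1) m‖ ≤
      η * ‖T.1‖ + ‖x - T.1 m‖ + (η * ‖S.1‖ + ‖y - S.1 m‖)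
    rw [e]
    nlinarith
  · rw [Real.mul_iInf_of_nonneg (norm_nonneg c)]
    refine le_ciInf fun T => ciInf_le_of_le (hb _) (c • T) (le_of_eq ?_)
    show η * ‖c • T.1‖ + ‖c • x - (c • T.1) m‖ = ‖c‖ * (η * ‖T.1‖ + ‖x - T.1 m‖)
    rw [ContinuousLinearMap.smul_apply, ← smul_sub, norm_smul, norm_smul]
    ring
  · obtain ⟨T, hT⟩ := exists_lt_of_ciInf_lt ht
    exact ⟨T.1, T.2, hT⟩

theorem mr_key (C : Subalgebra 𝕜 (X →L[𝕜] X)) (hC : ∀ T ∈ C, ∀ S ∈ C, T * S = S * T) (m x h : X)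
    (η : ℝ) (hη : 0 < η) (hη1 : η ≤ 1) (hm : ‖x - m‖ < η ^ 2) (T S : X →L[𝕜] X) (hT : T ∈ C)
    (hS : S ∈ C) (h1 : η * ‖T‖ + ‖x + h - T m‖ < η + 2 * η ^ 2)
    (h2 : η * ‖S‖ + ‖x - h - S m‖ < η + 2 * η ^ 2) (j : ℕ) :
    j * ‖h‖ ≤ 2 * (‖x‖ + 1) + j * ((2 * 2 ^ j + 2) * (η * (6 + 2 * ‖x‖))) := by
  obtain ⟨c, hc⟩ : ∃ c : 𝕜, c = (((1 + 2 * η)⁻¹ : ℝ) : 𝕜) := ⟨_, rfl⟩
  have p0 : 0 < 1 + 2 * η := by positivity
  have hcn : ‖c‖ = (1 + 2 * η)⁻¹ := by rw [hc, RCLike.norm_ofReal, abs_of_pos (inv_pos.2 p0)]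
  have e2 : η ^ 2 ≤ η := by nlinarith
  have hm1 : ‖m‖ ≤ ‖x‖ + 1 := by
    have := norm_sub_norm_le m x
    rw [norm_sub_rev] at this
    linarith
  have aux : ∀ (U : X →L[𝕜] X) (k : X), η * ‖U‖ + ‖x + k - U m‖ < η + 2 * η ^ 2 →
      (∀ v, ‖(c • U) v‖ ≤ ‖v‖) ∧ ‖m + k - (c • U) m‖ ≤ η * (6 + 2 * ‖x‖) := by
    intro U k hk
    have n1 := norm_nonneg (x + k - U m)
    have n2 := mul_nonneg hη.le (norm_nonneg U)
    have a : ‖U‖ ≤ 1 + 2 * η := le_of_mul_le_mul_left (by nlinarith) hη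
    have b : ∀ v, ‖(c • U) v‖ ≤ ‖v‖ := fun v => by
      rw [ContinuousLinearMap.smul_apply, norm_smul, hcn, inv_mul_le_iff₀ p0]
      exact (U.le_opNorm v).trans (mul_le_mul_of_nonneg_right a (norm_nonneg _))
    refine ⟨b, ?_⟩
    have e : U m - (c • U) m = ((2 * η : ℝ) : 𝕜) • (c • U) m := by
      rw [ContinuousLinearMap.smul_apply, smul_smul]
      nth_rewrite 1 [← one_smul 𝕜 (U m)]
      rw [← sub_smul, hc]
      congr 1
      rw [← RCLike.ofReal_mul, ← RCLike.ofReal_one, ← RCLike.ofReal_sub]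
      congr 1
      field_simp
      ring
    have d : ‖U m - (c • U) m‖ ≤ 2 * η * (‖x‖ + 1) := by
      rw [e, norm_smul, RCLike.norm_ofReal, abs_of_pos (by positivity)]
      exact mul_le_mul_of_nonneg_left ((b m).trans hm1) (by positivity)
    have f : m + k - (c • U) m = (x + k - U m) + (U m - (c • U) m) - (x - m) := by abel
    have g1 := norm_sub_le ((x + k - U m) + (U m - (c • U) m)) (x - m)
    have g2 := norm_add_le (x + k - U m) (U m - (c • U) m)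
    rw [f]
    nlinarith
  obtain ⟨a1, a2⟩ := aux T h h1
  obtain ⟨b1, b2⟩ := aux S (-h) (by rwa [← sub_eq_add_neg])
  rw [← sub_eq_add_neg] at b2
  have := mr_fw (c • T) (c • S) a1 b1 (fun v => congrArg (fun U : X →L[𝕜] X => U v)
    (hC _ (C.smul_mem hT c) _ (C.smul_mem hS c))) m h _ a2 b2 j
  linarith

theorem main {G : Type} [Group G] (A : Subgroup G) [A.FiniteIndex]
    (hA : ∀ a ∈ A, ∀ b ∈ A, a * b = b * a) [TopologicalSpace.SeparableSpace X]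
    (ρ : G →* (X ≃ₗᵢ[𝕜] X)) : ∃ N : Seminorm 𝕜 X,
      (∃ a b : ℝ, 0 < a ∧ 0 < b ∧ ∀ x, a * ‖x‖ ≤ N x ∧ N x ≤ b * ‖x‖) ∧
      (∀ g x, N (ρ g x) = N x) ∧
      ∀ x, N x = 1 → ∀ ε : ℝ, 0 < ε → ∃ δ : ℝ, 0 < δ ∧ ∀ h,
        N (x + h) ≤ 1 + δ → N (x - h) ≤ 1 + δ → N h < ε := by
  classical
  obtain ⟨u, hu⟩ := TopologicalSpace.exists_dense_seq X
  have rm : ∀ g k x, ρ (g * k) x = ρ g (ρ k x) := fun g k x => by rw [map_mul]; rfl
  have r1 : ∀ x, ρ 1 x = x := fun x => by rw [map_one]; rfl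
  let R : G → X →L[𝕜] X := fun g => (ρ g).toLinearIsometry.toContinuousLinearMap
  let C : Subalgebra 𝕜 (X →L[𝕜] X) := Algebra.adjoin 𝕜 (R '' A)
  have hC : ∀ T ∈ C, ∀ S ∈ C, T * S = S * T := by
    have a : ∀ S ∈ C, ∀ b ∈ R '' A, Commute S b := fun S hS b hb =>
      (Algebra.commute_of_mem_adjoin_of_forall_mem_commute hS (by
        rintro _ ⟨a, ha, rfl⟩
        obtain ⟨b, hb, rfl⟩ := hb
        ext v
        show ρ b (ρ a v) = ρ a (ρ b v)
        rw [← rm, ← rm, hA a ha b hb])).symm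
    exact fun T hT S hS => Algebra.commute_of_mem_adjoin_of_forall_mem_commute hS (a T hT)
  choose pm pm1 pm2 using fun (k l : ℕ) => mr_sem C (u k) (1 / ((l : ℝ) + 1)) (by positivity)
  have pm3 : ∀ k l, ∀ a ∈ A, ∀ x, pm k l (ρ a x) ≤ pm k l x := fun k l a ha x =>
    le_of_forall_gt fun t ht => by
      obtain ⟨T, hT, h⟩ := pm2 k l x t ht
      refine (pm1 k l _ (R a * T) (C.mul_mem (Algebra.subset_adjoin ⟨a, ha, rfl⟩) hT)).trans_lt
        (lt_of_le_of_lt (add_le_add ?_ (le_of_eq ?_)) h)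
      · refine mul_le_mul_of_nonneg_left (ContinuousLinearMap.opNorm_le_bound _ (norm_nonneg _)
          fun v => ?_) (by positivity)
        exact ((ρ a).norm_map (T v)).trans_le (T.le_opNorm v)
      · show ‖ρ a x - ρ a (T (u k))‖ = _
        rw [← map_sub, (ρ a).norm_map]
  let q : ℕ → Seminorm 𝕜 X := fun n =>
    if n = 0 then normSeminorm 𝕜 X else pm (n - 1).unpair.1 (n - 1).unpair.2
  have q1 : ∀ n x, q n x ≤ ‖x‖ := fun n x => by
    simp only [q]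
    split_ifs
    · exact le_rfl
    · simpa using pm1 _ _ x 0 C.zero_mem
  have q2 : ∀ n, ∀ a ∈ A, ∀ x, q n (ρ a x) = q n x := fun n a ha x => by
    simp only [q]
    split_ifs
    · exact (ρ a).norm_map x
    · refine le_antisymm (pm3 _ _ a ha x) ?_
      have := pm3 (n - 1).unpair.1 (n - 1).unpair.2 a⁻¹ (A.inv_mem ha) (ρ a x)
      rwa [← rm, inv_mul_cancel, r1] at this
  have q3 : ∀ n (g g' : G) x, (g : G ⧸ A) = g' → q n (ρ g⁻¹ x) = q n (ρ g'⁻¹ x) := by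
    intro n g g' x e
    rw [← q2 n _ (QuotientGroup.eq.1 e) (ρ g'⁻¹ x), ← rm, mul_inv_cancel_right]
  let p : (G ⧸ A) × ℕ → Seminorm 𝕜 X := fun i =>
    (q i.2).comp (ρ i.1.out⁻¹).toLinearEquiv.toLinearMap
  have p1 : ∀ (g : G) n x, p (g, n) x = q n (ρ g⁻¹ x) := fun g n x =>
    q3 n _ g x (QuotientGroup.out_eq' _)
  have p2 : ∀ n x, p (((1 : G) : G ⧸ A), n) x = q n x := fun n x => by rw [p1, inv_one, r1]
  let w : (G ⧸ A) × ℕ → ℝ := fun i => 1 * (1 / 2) ^ i.2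
  have hw : ∀ i, 0 < w i := fun i => by positivity
  have hs : Summable w :=
    Summable.mul_of_nonneg (f := fun _ : G ⧸ A => (1 : ℝ)) (g := fun n : ℕ => (1 / 2 : ℝ) ^ n)
      Summable.of_finite summable_geometric_two (fun _ => zero_le_one) fun _ => by positivity
  obtain ⟨N, n1, n2, n3, n4⟩ := kd_l2 w (fun i => (hw i).le) hs p
    (fun i x => (q1 _ _).trans ((ρ i.1.out⁻¹).norm_map x).le) (((1 : G) : G ⧸ A), 0) (by simp [w])
    (fun x => by rw [p2]; rfl)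
  have hb : 0 < √(∑' i, w i) :=
    Real.sqrt_pos.2 (hs.tsum_pos (fun i => (hw i).le) _ (hw (((1 : G) : G ⧸ A), 0)))
  generalize √(∑' i, w i) = b at hb n3
  refine ⟨N, ⟨1, b, one_pos, hb, fun x => ⟨by rw [one_mul]; exact n2 x, n3 x⟩⟩, fun g x => ?_,
    fun x hx ε hε => ?_⟩
  · refine (pow_left_inj₀ (apply_nonneg _ _) (apply_nonneg _ _) two_ne_zero).1 ?_
    rw [n1, n1, ← ((MulAction.toPerm g⁻¹ : Equiv.Perm (G ⧸ A)).prodCongr (Equiv.refl ℕ)).tsum_eq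
      fun i => w i * p i x ^ 2]
    refine tsum_congr ?_
    rintro ⟨c, n⟩
    obtain ⟨k, rfl⟩ := QuotientGroup.mk_surjective c
    show w (k, n) * p (k, n) (ρ g x) ^ 2 = w (k, n) * p (((g⁻¹ * k : G) : G ⧸ A), n) x ^ 2
    rw [p1, p1, ← rm, mul_inv_rev, inv_inv]
  · obtain ⟨e, he⟩ : ∃ e : ℝ, e = ε / b := ⟨_, rfl⟩
    have e0 : 0 < e := by rw [he]; positivity
    obtain ⟨j, hj⟩ := exists_nat_gt (4 * (‖x‖ + 1) / e)
    have j0 : (0 : ℝ) < j := lt_trans (by positivity) hj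
    rw [div_lt_iff₀ e0] at hj
    obtain ⟨Z, hZ⟩ : ∃ Z : ℝ, Z = (2 * 2 ^ j + 2) * (6 + 2 * ‖x‖) := ⟨_, rfl⟩
    have Z0 : 0 < Z := by rw [hZ]; positivity
    obtain ⟨l, hl⟩ := exists_nat_one_div_lt (K := ℝ) (ε := e / 2 / Z) (by positivity)
    have η0 : (0 : ℝ) < 1 / ((l : ℝ) + 1) := by positivity
    have η1 : (1 : ℝ) / ((l : ℝ) + 1) ≤ 1 := by
      rw [div_le_one (by positivity)]
      linarith [Nat.cast_nonneg (α := ℝ) l]
    obtain ⟨k, hk⟩ := Metric.denseRange_iff.1 hu x ((1 / ((l : ℝ) + 1)) ^ 2) (by positivity)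
    rw [dist_eq_norm] at hk
    have hq : q (Nat.pair k l + 1) = pm k l := by simp [q]
    have a1 := pm1 k l x 1 C.one_mem
    have a2 := pm2 k l
    have a3 := fun y z => n4 y z (((1 : G) : G ⧸ A), Nat.pair k l + 1)
    simp only [p2, hq] at a3
    have w0 := hw (((1 : G) : G ⧸ A), Nat.pair k l + 1)
    generalize w (((1 : G) : G ⧸ A), Nat.pair k l + 1) = r at a3 w0
    generalize 1 / ((l : ℝ) + 1) = η at *
    generalize pm k l = s at *
    have a4 : s x < η + η ^ 2 := by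
      have := mul_le_mul_of_nonneg_left (ContinuousLinearMap.norm_id_le (𝕜 := 𝕜) (E := X)) η0.le
      have a1' : s x ≤ η * ‖ContinuousLinearMap.id 𝕜 X‖ + ‖x - u k‖ := a1
      linarith
    refine ⟨min 1 (r * (η ^ 2 / 2) ^ 2 / 13), by positivity, fun h h1 h2 => ?_⟩
    have d1 := min_le_left 1 (r * (η ^ 2 / 2) ^ 2 / 13)
    have d2 := min_le_right 1 (r * (η ^ 2 / 2) ^ 2 / 13)
    have d0 : 0 < min 1 (r * (η ^ 2 / 2) ^ 2 / 13) := by positivity
    generalize min 1 (r * (η ^ 2 / 2) ^ 2 / 13) = δ at *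
    have t0 : 0 < η ^ 2 / 2 := by positivity
    have two : ∀ M : Seminorm 𝕜 X, M (x + h + (x - h)) = 2 * M x := fun M => by
      rw [add_add_sub_cancel, ← two_smul 𝕜 x, map_smul_eq_mul, RCLike.norm_two]
    have a5 := a3 (x + h) (x - h)
    rw [two, two, hx] at a5
    have a6 : N (x + h) ^ 2 ≤ (1 + δ) ^ 2 := pow_le_pow_left₀ (apply_nonneg _ _) h1 2
    have a7 : N (x - h) ^ 2 ≤ (1 + δ) ^ 2 := pow_le_pow_left₀ (apply_nonneg _ _) h2 2
    have a8 : 2 * s (x + h) ^ 2 + 2 * s (x - h) ^ 2 - (2 * s x) ^ 2 < (η ^ 2 / 2) ^ 2 :=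
      lt_of_mul_lt_mul_left (a := r) (by nlinarith) w0.le
    have a9 : 2 * s x ≤ s (x + h) + s (x - h) := two s ▸ map_add_le_add s _ _
    have fin : ∀ α β γ τ : ℝ, 0 ≤ γ → 0 < τ → 2 * γ ≤ α + β →
        2 * α ^ 2 + 2 * β ^ 2 - (2 * γ) ^ 2 < τ ^ 2 → α < γ + 2 * τ := by
      intro α β γ τ g0 τ0 i1 i2
      have i3 : (2 * γ) ^ 2 ≤ (α + β) ^ 2 := pow_le_pow_left₀ (by positivity) i1 2
      have i4 := (abs_lt.1 (abs_lt_of_sq_lt_sq (a := α - β) (by nlinarith) τ0.le)).2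
      by_contra i5
      have i6 : (γ + τ) ^ 2 ≤ α ^ 2 := pow_le_pow_left₀ (by positivity) (by linarith) 2
      have i7 : (γ + τ) ^ 2 ≤ β ^ 2 := pow_le_pow_left₀ (by positivity) (by linarith) 2
      nlinarith [mul_nonneg g0 τ0.le]
    have b1 := fin _ _ _ _ (apply_nonneg s x) t0 a9 a8
    have b2 := fin (s (x - h)) (s (x + h)) _ _ (apply_nonneg s x) t0 (by linarith) (by linarith)
    obtain ⟨T, hT, c1⟩ := a2 (x + h) (η + 2 * η ^ 2) (by linarith)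
    obtain ⟨S, hS, c2⟩ := a2 (x - h) (η + 2 * η ^ 2) (by linarith)
    have c3 := mr_key C hC (u k) x h η η0 η1 hk T S hT hS c1 c2 j
    have c4 : (2 * 2 ^ j + 2) * (η * (6 + 2 * ‖x‖)) < e / 2 := by
      rw [lt_div_iff₀ Z0, hZ] at hl
      linarith
    have c5 : ‖h‖ < e := lt_of_mul_lt_mul_left (a := (j : ℝ))
      (by nlinarith [mul_lt_mul_of_pos_left c4 j0]) j0.le
    have c6 : b * e = ε := by rw [he]; field_simp
    exact (n3 _).trans_lt (c6 ▸ mul_lt_mul_of_pos_left c5 hb)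

end Pool.Agent.FS.MidRot
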